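import Pool.Agent.H93.EN.Targets2
import Pool.Agent.H26.BL.B2

/-!
# Near a side in `E` (FEC)
-/

set_option autoImplicit false

namespace Pool.Agent.H54.EN

open MeasureTheory Set Metric Filter Topology Pool.Agent.H93.EN
open Pool.Agent.H93.BL hiding T_B1 T_B2 T_B3 T_SB T_SC

/-- a ray towards the side in `E` reaches it -/
lemma reach_side {ι : Type} (P : Polygon ι) (E : Set ι) (U : Set ℂ) (e : ι) (he : e ∈ E)
    (x : ℂ) (R : ℝ) (w : ℂ) (hch : Chart P x R (some e)) (hw : ‖w‖ = 1)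
    (hx : 0 < sg P e x) (hc : cr (P.u e) w < 0) (hlt : sg P e x < R * (-cr (P.u e) w)) :
    RU P E U x w := by
  obtain ⟨h0, h1, h2⟩ := hch
  obtain ⟨c, hcd⟩ : ∃ c, c = -cr (P.u e) w := ⟨_, rfl⟩
  have hc0 : 0 < c := by rw [hcd]; linarith
  rw [← hcd] at hlt
  obtain ⟨t, htd⟩ : ∃ t, t = sg P e x / c := ⟨_, rfl⟩
  have ht0 : 0 < t := by rw [htd]; exact div_pos hx hc0
  have htR : t < R := by rw [htd, div_lt_iff₀ hc0]; exact hlt
  have htc : t * c = sg P e x := by rw [htd]; exact div_mul_cancel₀ _ hc0.ne'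
  have hsg : ∀ r : ℝ, sg P e (x + (r : ℂ) * w) = sg P e x - r * c := by
    intro r
    have e1 : x + (r : ℂ) * w - P.p e = (x - P.p e) + (r : ℂ) * w := by ring
    unfold sg
    rw [e1, cr_add_right, cr_smul_right, hcd]
    ring
  have hball : ∀ r : ℝ, 0 ≤ r → r < R → x + (r : ℂ) * w ∈ ball x R := by
    intro r hr0 hrR
    rw [mem_ball, dist_eq_norm]
    have e1 : x + (r : ℂ) * w - x = (r : ℂ) * w := by ring
    rw [e1, norm_mul, hw, mul_one, Complex.norm_real, Real.norm_eq_abs, abs_of_nonneg hr0]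
    exact hrR
  have hz : x + (t : ℂ) * w ∈ openSegment ℝ (P.p e) (P.q e) := by
    refine h2 _ (hball t ht0.le htR) ?_
    rw [hsg, htc, sub_self]
  have hn' : 0 < ip (P.refl e w) (P.n e) := by
    rw [P.ip_refl_n, P.ip_n]
    linarith
  obtain ⟨s, φ, hp, hpos, hdir⟩ :=
    Pool.Agent.H26.BL.B2.b2 ι P e (x + (t : ℂ) * w) (P.refl e w) ⟨hz, by rw [P.norm_refl, hw], hn'⟩
  refine Or.inr ⟨(e, s, φ), hp, ⟨t, ht0, hpos, ?_⟩, hdir, (e, s, φ),
    Relation.ReflTransGen.refl, Or.inl he⟩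
  intro r hr
  refine h1 _ (hball r hr.1.le (hr.2.trans htR)) ?_
  rw [hsg, ← htc]
  have : r * c < t * c := mul_lt_mul_of_pos_right hr.2 hc0
  linarith

theorem fec : T_FEC := by
  intro ι P E U e he x R w hR hch hw hx hlt
  unfold FE
  rw [if_neg]
  rintro ⟨-, -, h1, h2⟩
  rcases lt_trichotomy (cr (P.u e) w) 0 with hc | hc | hc
  · rw [abs_of_neg hc] at hlt
    exact h1 (reach_side P E U e he x R w hch hw hx hc hlt)
  · rw [hc, abs_zero, mul_zero] at hlt
    linarith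
  · rw [abs_of_pos hc] at hlt
    refine h2 (reach_side P E U e he x R (-w) hch (by rw [norm_neg, hw]) hx ?_ ?_)
    · rw [cr_neg_right]; linarith
    · rw [cr_neg_right, neg_neg]; exact hlt

end Pool.Agent.H54.EN
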